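import Mathlib
import Pool.Agent.Helper372.SuperAt

set_option autoImplicit false

/-!
Boolean algebras isomorphic to all their subalgebras of full size: conditions on the number of the
superatomic elements.
-/

open Cardinal Set
open Pool.Agent.Helper372.SuperAt

universe u

namespace Pool.Agent.Y586.SA

variable {B : Type u} [BooleanAlgebra B] {κ : Cardinal.{u}}

theorem sum_lt {ι : Type u} (hω : ℵ₀ ≤ κ) (f : ι → Cardinal.{u}) (h1 : #ι < κ.ord.cof)
    (h2 : ∀ i, f i < κ) : Cardinal.sum f < κ := by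
  have h3 : #ι < κ := h1.trans_le (Ordinal.cof_ord_le κ)
  have h4 : iSup f < κ := Cardinal.iSup_lt_of_lt_cof_ord h1 h2
  exact (Cardinal.sum_le_mk_mul_iSup f).trans_lt (Cardinal.mul_lt_of_lt hω h3 h4)

/-- few superatomic elements, compared with the cofinality -/
theorem sc_top_of_cof (hω : ℵ₀ ≤ κ) (hcof : #{b : B | Sc b} < κ.ord.cof) (hB : #B = κ)
    (hstar : Star κ B) : Sc (⊤ : B) := by
  by_contra htop
  -- the exceptional set
  let N : Set B := ⋃ c : {c : B | Sc c}, {b | (c : B) ≠ ⊥ ∧ b ∈ joinSet {b : B | Sc b} (Lc (c : B))}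
  have hN : #N < κ := by
    refine lt_of_le_of_lt Cardinal.mk_iUnion_le_sum_mk ?_
    refine sum_lt hω _ hcof fun c => ?_
    by_cases hc : (c : B) = ⊥
    · have : {b | (c : B) ≠ ⊥ ∧ b ∈ joinSet {b : B | Sc b} (Lc (c : B))} = ∅ := by
        ext; simp [hc]
      rw [this, Cardinal.mk_eq_zero]
      exact Cardinal.aleph0_pos.trans_le hω
    · refine lt_of_le_of_lt (Cardinal.mk_le_mk_of_subset fun b hb => hb.2)
        (mk_joinSet_lt hω (mk_sc_lt hB hstar htop) (mk_Lc_lt hω hB hstar htop hc c.2))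
  -- choose `b`
  have hb : ∃ b : B, b ∉ N ∧ #(Iic bᶜ) = κ := by
    by_contra hcon
    push Not at hcon
    have h1 : ∀ b : B, b ∈ N ∨ bᶜ ∈ N := by
      intro b
      rcases mk_iic_or hω hB b with h | h
      · right
        by_contra h2
        exact hcon bᶜ h2 (by rwa [compl_compl])
      · left
        by_contra h2
        exact hcon b h2 h
    have h2 : (Set.univ : Set B) ⊆ N ∪ compl '' N := by
      intro b _
      rcases h1 b with h | h
      · exact Or.inl h
      · exact Or.inr ⟨bᶜ, h, compl_compl b⟩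
    have h3 := (Cardinal.mk_le_mk_of_subset h2).trans (Cardinal.mk_union_le _ _)
    rw [Cardinal.mk_univ, hB] at h3
    exact absurd h3 (not_le.2 (Cardinal.add_lt_of_lt hω hN
      (lt_of_le_of_lt Cardinal.mk_image_le hN)))
  obtain ⟨b, hbN, hcard⟩ := hb
  obtain ⟨φ⟩ := hstar _ (mk_sub_of_mk_iic hB isIdl_sc hcard)
  let b' : sub {b : B | Sc b} isIdl_sc b := ⟨b, self_mem_sub⟩
  have hsb : Sc b' := sc_self_sub b self_mem_sub
  have hsc : Sc (φ b') := (sc_map_iff φ).2 hsb
  have hb0 : b ≠ ⊥ := by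
    obtain ⟨c, c', hc, -, -, hs, -⟩ := two_atoms hω hB hstar htop
    rintro rfl
    apply hbN
    refine Set.mem_iUnion.2 ⟨⟨c, hs⟩, hc, ⊥, sc_bot, ⊥, (isIdl_Lc hc).bot, sup_idem ⊥⟩
  have hc0 : φ b' ≠ ⊥ := by
    intro h
    rw [map_eq_bot_iff] at h
    exact hb0 (congrArg Subtype.val h)
  have hbc : b ∉ joinSet {b : B | Sc b} (Lc (φ b')) := by
    intro h
    exact hbN (Set.mem_iUnion.2 ⟨⟨φ b', hsc⟩, hc0, h⟩)
  obtain ⟨f, f1, f2, f3⟩ := exists_seq hbc
  have hfm : ∀ n, f n ∈ sub {b : B | Sc b} isIdl_sc b := fun n => mem_sub_of_mem (f3 n).1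
  have hstep : ∀ γ : Ordinal.{u}, RkGe γ b' → RkGe (Order.succ γ) b' := by
    intro γ hγ
    refine rkGe_succ (fun n => ⟨f n, hfm n⟩) (fun n => f1 n) (fun m n hmn => ?_) (fun n => ?_)
    · rw [disjoint_iff]
      exact Subtype.ext (disjoint_iff.1 (f2 m n hmn))
    · refine (rkGe_sub_iff _ (⟨f n, hfm n⟩ : sub {b : B | Sc b} isIdl_sc b)
        (fun x hx => mem_sub_of_mem (Sc.mono hx (f3 n).1))).2 ?_
      exact (f3 n).2 γ ((rkGe_map_iff φ).2 hγ)
  obtain ⟨γ, hγ⟩ := hsb
  refine hγ (rkGe_of_step ?_ hstep γ)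
  intro h
  exact hb0 (congrArg Subtype.val h)

open Classical in
/-- an algebra is determined by the traces on the superatomic elements and the elements disjoint
from them -/
theorem mk_le_pow_mul : #B ≤ 2 ^ #{b : B | Sc b} * #(L0 B) := by
  let T : B → Set {b : B | Sc b} := fun x => {s | (s : B) ≤ x}
  have hT : ∀ x y : B, T x = T y → x \ y ∈ L0 B := by
    intro x y h z hz hs
    have h1 : (⟨z, hs⟩ : {b : B | Sc b}) ∈ T x := hz.trans sdiff_le
    rw [h] at h1
    have h2 : z ≤ y := h1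
    exact (disjoint_sdiff_self_left.mono_left hz).eq_bot_of_le h2
  have hT2 : ∀ x y : B, T x = T y → symmDiff x y ∈ L0 B := fun x y h =>
    isIdl_L0.sup (hT x y h) (hT y x h.symm)
  let r : Set {b : B | Sc b} → B := fun t => if h : ∃ x, T x = t then h.choose else ⊥
  have hr : ∀ x, T (r (T x)) = T x := by
    intro x
    have h : ∃ y, T y = T x := ⟨x, rfl⟩
    simp only [r, h, dite_true]
    exact h.choose_spec
  let g : B → Set {b : B | Sc b} × L0 B := fun x =>
    (T x, ⟨symmDiff x (r (T x)), hT2 _ _ (hr x).symm⟩)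
  have hg : Function.Injective g := by
    intro x y h
    have h1 : T x = T y := congrArg Prod.fst h
    have h2 : symmDiff x (r (T x)) = symmDiff y (r (T y)) :=
      congrArg (fun p => (p.2 : B)) h
    rw [h1] at h2
    exact symmDiff_left_injective _ h2
  have h := Cardinal.mk_le_of_injective hg
  rwa [Cardinal.mk_prod, Cardinal.lift_id, Cardinal.lift_id, Cardinal.mk_set] at h

/-- few superatomic elements, compared with the power -/
theorem sc_top_of_pow (hω : ℵ₀ ≤ κ) (hpow : 2 ^ #{b : B | Sc b} < κ) (hB : #B = κ)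
    (hstar : Star κ B) : Sc (⊤ : B) := by
  by_contra htop
  have h1 := mk_le_pow_mul (B := B)
  rw [hB] at h1
  exact absurd h1 (not_le.2 (Cardinal.mul_lt_of_lt hω hpow (mk_L0_lt hω hB hstar htop)))

/-- The subalgebra of all elements below `b` and their complements. -/
def below (b : B) : BooleanSubalgebra B := sub (Iic b) (b := ⊤)
  ⟨bot_le, fun hxy hy => le_trans hxy hy, fun hx hy => sup_le hx hy⟩

theorem mem_below {b x : B} : x ∈ below b ↔ x ≤ b ∨ xᶜ ≤ b := mem_sub_top

theorem sc_top_below {b : B} (hb : Sc b) : Sc (⊤ : below b) := by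
  have hbm : b ∈ below b := mem_below.2 (Or.inl le_rfl)
  have h1 : Sc (⟨b, hbm⟩ : below b) :=
    (sc_sub_iff _ ⟨b, hbm⟩ (fun x hx => mem_below.2 (Or.inl hx))).2 hb
  have hcm : bᶜ ∈ below b := mem_below.2 (Or.inr (compl_compl b).le)
  have h2 : Sc (⟨bᶜ, hcm⟩ : below b) := by
    refine ⟨1, not_rkGe_one_of_atom _ _ hcm fun x hx hxb => ?_⟩
    rcases mem_below.1 hx with h | h
    · left
      exact le_bot_iff.1 (inf_compl_eq_bot (a := b) ▸ le_inf h hxb)
    · right
      exact le_antisymm hxb (compl_le_iff_compl_le.1 h)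
  have h3 : (⟨b, hbm⟩ : below b) ⊔ ⟨bᶜ, hcm⟩ = ⊤ := Subtype.ext sup_compl_eq_top
  rw [← h3]
  exact h1.sup h2

end Pool.Agent.Y586.SA
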