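import Mathlib
import Pool.Agent.Y586.SA.Gen

set_option autoImplicit false

/-!
Boolean algebras isomorphic to all their subalgebras of full size: splitting into two large parts.
-/

open Cardinal Set
open Pool.Agent.Helper372.SuperAt

universe u

namespace Pool.Agent.Y586.SA

variable {B : Type u} [BooleanAlgebra B] {κ : Cardinal.{u}}

theorem mem_join (hω : ℵ₀ ≤ κ) (hB : #B = κ) (hstar : Star κ B) (htop : ¬ Sc (⊤ : B)) {b : B}
    (hcard : #(Iic bᶜ) = κ) :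
    ∃ c : B, Sc c ∧ c ≠ ⊥ ∧ b ∈ joinSet {b : B | Sc b} (Lc c) := by
  by_cases hb0 : b = ⊥
  · obtain ⟨c, c', hc, -, -, hs, -⟩ := two_atoms hω hB hstar htop
    exact ⟨c, hs, hc, ⊥, sc_bot, ⊥, (isIdl_Lc hc).bot, by rw [hb0, sup_idem]⟩
  obtain ⟨φ⟩ := hstar _ (mk_sub_of_mk_iic hB isIdl_sc hcard)
  let b' : sub {b : B | Sc b} isIdl_sc b := ⟨b, self_mem_sub⟩
  have hsb : Sc b' := sc_self_sub b self_mem_sub
  have hsc : Sc (φ b') := (sc_map_iff φ).2 hsb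
  have hc0 : φ b' ≠ ⊥ := by
    intro h
    rw [map_eq_bot_iff] at h
    exact hb0 (congrArg Subtype.val h)
  refine ⟨φ b', hsc, hc0, ?_⟩
  by_contra hbc
  obtain ⟨f, f1, f2, f3⟩ := exists_seq hbc
  have hfm : ∀ n, f n ∈ sub {b : B | Sc b} isIdl_sc b := fun n => mem_sub_of_mem (f3 n).1
  have hstep : ∀ γ : Ordinal.{u}, RkGe γ b' → RkGe (Order.succ γ) b' := by
    intro γ hγ
    refine rkGe_succ (fun n => ⟨f n, hfm n⟩) (fun n => f1 n) (fun m n hmn => ?_) (fun n => ?_)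
    · rw [disjoint_iff]
      exact Subtype.ext (disjoint_iff.1 (f2 m n hmn))
    · refine (rkGe_sub_iff _ (⟨f n, hfm n⟩ : sub {b : B | Sc b} isIdl_sc b)
        (fun x hx => mem_sub_of_mem (Sc.mono hx (f3 n).1))).2 ?_
      exact (f3 n).2 γ ((rkGe_map_iff φ).2 hγ)
  obtain ⟨γ, hγ⟩ := hsb
  refine hγ (rkGe_of_step ?_ hstep γ)
  intro h
  exact hb0 (congrArg Subtype.val h)

theorem rk_total (c c' : B) : (∀ γ : Ordinal.{u}, RkGe γ c → RkGe γ c') ∨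
    (∀ γ : Ordinal.{u}, RkGe γ c' → RkGe γ c) := by
  by_contra hcon
  push Not at hcon
  obtain ⟨⟨γ, h1, h2⟩, ⟨δ, h3, h4⟩⟩ := hcon
  rcases le_total γ δ with h | h
  · exact h2 (h3.anti h)
  · exact h4 (h1.anti h)

theorem Lc_mono {c c' : B} (h : ∀ γ : Ordinal.{u}, RkGe γ c → RkGe γ c') : Lc c ⊆ Lc c' := by
  intro l hl x hx hs hcon
  exact hl x hx hs fun γ hγ => hcon γ (h γ hγ)

theorem join_univ {c : B} (hc : c ≠ ⊥) {b b' : B} (h : b ∈ joinSet {b : B | Sc b} (Lc c))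
    (h' : b' ∈ joinSet {b : B | Sc b} (Lc c)) (z : B) (hz : z ≤ b ⊔ b') :
    z ∈ joinSet {b : B | Sc b} (Lc c) := by
  obtain ⟨x, hx, y, hy, rfl⟩ := h
  obtain ⟨x', hx', y', hy', rfl⟩ := h'
  refine ⟨z ⊓ (x ⊔ x'), Sc.mono inf_le_right (hx.sup hx'), z ⊓ (y ⊔ y'),
    (isIdl_Lc hc).lower inf_le_right ((isIdl_Lc hc).sup hy hy'), ?_⟩
  rw [← inf_sup_left, inf_eq_left]
  refine hz.trans ?_
  rw [sup_sup_sup_comm]

/-- two large parts -/
theorem sc_top_of_split (hω : ℵ₀ ≤ κ) (hB : #B = κ) (hstar : Star κ B) {b : B}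
    (h1 : #(Iic b) = κ) (h2 : #(Iic bᶜ) = κ) : Sc (⊤ : B) := by
  by_contra htop
  obtain ⟨c, hs, hc, hb⟩ := mem_join hω hB hstar htop h2
  obtain ⟨c', hs', hc', hb'⟩ := mem_join hω hB hstar htop (b := bᶜ) (by rwa [compl_compl])
  have key : ∃ d : B, Sc d ∧ d ≠ ⊥ ∧ b ∈ joinSet {b : B | Sc b} (Lc d) ∧
      bᶜ ∈ joinSet {b : B | Sc b} (Lc d) := by
    have mono : ∀ S T : Set B, S ⊆ T → joinSet {b : B | Sc b} S ⊆ joinSet {b : B | Sc b} T := by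
      rintro S T hST z ⟨x, hx, y, hy, rfl⟩
      exact ⟨x, hx, y, hST hy, rfl⟩
    rcases rk_total c c' with h | h
    · exact ⟨c', hs', hc', mono _ _ (Lc_mono h) hb, hb'⟩
    · exact ⟨c, hs, hc, hb, mono _ _ (Lc_mono h) hb'⟩
  obtain ⟨d, hds, hd, k1, k2⟩ := key
  have h3 : (Set.univ : Set B) ⊆ joinSet {b : B | Sc b} (Lc d) := fun z _ =>
    join_univ hd k1 k2 z (by rw [sup_compl_eq_top]; exact le_top)
  have h4 := Cardinal.mk_le_mk_of_subset h3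
  rw [Cardinal.mk_univ, hB] at h4
  exact absurd h4 (not_le.2 (mk_joinSet_lt hω (mk_sc_lt hB hstar htop)
    (mk_Lc_lt hω hB hstar htop hd hds)))

end Pool.Agent.Y586.SA
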